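import Pool.Agent.Y685.SY.Stm

/-!
# The mollified 2-form is tamed by `Q` (helper454, job SY-LOW)
-/

set_option maxSynthPendingDepth 3

open scoped Manifold ContDiff Topology ENNReal
open MeasureTheory Set Metric

namespace Pool.Agent.Y454.SY

open Pool.Agent.Y685.SY

variable {E : Type} [NormedAddCommGroup E] [InnerProductSpace ℝ E] [FiniteDimensional ℝ E]
  [MeasurableSpace E] [BorelSpace E]

theorem low_aux (θ : E → E →L[ℝ] E →L[ℝ] ℝ) (A : E → E →L[ℝ] E) (Q : E →L[ℝ] E) (x : E)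
    (ρ : ContDiffBump (0 : E)) (c κ : ℝ) (hin : ρ.rIn = ρ.rOut / 2) (hκ : 0 ≤ κ)
    (hθ : IntegrableOn θ (ball x ρ.rOut))
    (hA : AEStronglyMeasurable A (volume.restrict (ball x ρ.rOut)))
    (htame : ∀ᵐ z ∂(volume.restrict (ball x ρ.rOut)), ∀ u : E, c * ‖u‖ ^ 2 ≤ θ z u (A z u))
    (hκ' : ∫⁻ z in ball x ρ.rOut, ‖θ z‖ₑ * ‖A z - Q‖ₑ
      ≤ ENNReal.ofReal (κ * ρ.rOut ^ Module.finrank ℝ E)) (v : E) :
    (c - 2 ^ Module.finrank ℝ E / volume.real (ball (0 : E) 1) * κ) * ‖v‖ ^ 2
      ≤ ∫ z, ρ.normed volume (x - z) * θ z v (Q v) := by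
  set R := ρ.rOut with hR
  set m := Module.finrank ℝ E with hm
  set V := volume.real (ball (0 : E) 1) with hV
  set C := 2 ^ m / V with hC
  have hR0 : 0 < R := ρ.rOut_pos
  have hV0 : 0 < V :=
    ENNReal.toReal_pos (measure_ball_pos _ _ one_pos).ne' measure_ball_lt_top.ne
  have hRm : 0 < R ^ m := pow_pos hR0 m
  set w : E → ℝ := fun z => ρ.normed volume (x - z) with hw
  -- the weight
  have w0 : ∀ z, 0 ≤ w z := fun z => ρ.nonneg_normed _
  have w1 : ∀ z, w z ≤ C / R ^ m := by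
    intro z
    have h := ρ.normed_le_div_measure_closedBall_rOut (μ := volume) 2
      (by rw [hin]; linarith) (x - z)
    rw [Measure.addHaar_real_closedBall _ _ ρ.rOut_pos.le] at h
    refine h.trans (le_of_eq ?_)
    rw [hC, div_div, mul_comm V]
  have w2 : ∀ z, z ∉ ball x R → w z = 0 := by
    intro z hz
    have h : x - z ∉ Function.support (ρ.normed volume) := by
      rw [ρ.support_normed_eq, mem_ball_zero_iff]
      intro h
      apply hz
      rw [mem_ball, dist_comm, dist_eq_norm]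
      exact h
    exact Function.notMem_support.1 h
  have wc : Continuous w := ρ.continuous_normed.comp (continuous_const.sub continuous_id)
  have w3 : ∫ z in ball x R, w z = 1 := by
    rw [setIntegral_eq_integral_of_forall_compl_eq_zero w2, hw,
      integral_sub_left_eq_self (fun y => ρ.normed volume y) volume x]
    exact ρ.integral_normed
  have wb : ∀ᵐ z ∂(volume.restrict (ball x R)), ‖w z‖ ≤ C / R ^ m :=
    Filter.Eventually.of_forall fun z => by
      rw [Real.norm_of_nonneg (w0 z)]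
      exact w1 z
  have wm : AEStronglyMeasurable w (volume.restrict (ball x R)) := wc.aestronglyMeasurable
  have hwI : IntegrableOn w (ball x R) :=
    (wc.continuousOn.integrableOn_compact (isCompact_closedBall x R)).mono_set
      ball_subset_closedBall
  -- the error
  set N : E → ℝ := fun z => ‖θ z‖ * ‖A z - Q‖ with hN
  have N0 : ∀ z, 0 ≤ N z := fun z => by positivity
  have Nm : AEStronglyMeasurable N (volume.restrict (ball x R)) :=
    hθ.aestronglyMeasurable.norm.mul (hA.sub aestronglyMeasurable_const).norm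
  have Ne : ∀ z, ‖N z‖ₑ = ‖θ z‖ₑ * ‖A z - Q‖ₑ := by
    intro z
    rw [hN, enorm_mul, enorm_norm, enorm_norm]
  have NI : IntegrableOn N (ball x R) := by
    refine ⟨Nm, ?_⟩
    refine lt_of_le_of_lt ?_ (ENNReal.ofReal_lt_top (r := κ * R ^ m))
    refine (le_of_eq ?_).trans hκ'
    exact lintegral_congr fun z => Ne z
  have Nb : ∫ z in ball x R, N z ≤ κ * R ^ m := by
    rw [integral_eq_lintegral_of_nonneg_ae (Filter.Eventually.of_forall N0) Nm]
    refine ENNReal.toReal_le_of_le_ofReal (by positivity) ?_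
    refine (le_of_eq ?_).trans hκ'
    refine lintegral_congr fun z => ?_
    rw [← Ne z, Real.enorm_of_nonneg (N0 z)]
  -- the form
  set g : E → ℝ := fun z => θ z v (Q v) with hg
  have gI : IntegrableOn g (ball x R) := by
    let L : (E →L[ℝ] E →L[ℝ] ℝ) →L[ℝ] ℝ :=
      (ContinuousLinearMap.apply ℝ ℝ (Q v)).comp (ContinuousLinearMap.apply ℝ (E →L[ℝ] ℝ) v)
    exact L.integrable_comp hθ
  have hgw : IntegrableOn (fun z => w z * g z) (ball x R) := gI.bdd_mul wm wb
  have hNw : IntegrableOn (fun z => w z * N z) (ball x R) := NI.bdd_mul wm wb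
  have e1 : ∫ z, w z * g z = ∫ z in ball x R, w z * g z :=
    (setIntegral_eq_integral_of_forall_compl_eq_zero fun z hz => by
      rw [w2 z hz, zero_mul]).symm
  have hpt : ∀ᵐ z ∂(volume.restrict (ball x R)),
      c * ‖v‖ ^ 2 * w z - ‖v‖ ^ 2 * (w z * N z) ≤ w z * g z := by
    filter_upwards [htame] with z hz
    have h1 := hz v
    have h2 : θ z v ((A z - Q) v) ≤ N z * ‖v‖ ^ 2 := by
      refine (le_abs_self _).trans ?_
      rw [← Real.norm_eq_abs]
      calc ‖θ z v ((A z - Q) v)‖ ≤ ‖θ z v‖ * ‖(A z - Q) v‖ := (θ z v).le_opNorm _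
        _ ≤ (‖θ z‖ * ‖v‖) * (‖A z - Q‖ * ‖v‖) := by
            gcongr
            · exact (θ z).le_opNorm v
            · exact (A z - Q).le_opNorm v
        _ = N z * ‖v‖ ^ 2 := by rw [hN]; ring
    have h3 : θ z v ((A z - Q) v) = θ z v (A z v) - g z := by
      rw [sub_apply, map_sub]
    rw [h3] at h2
    have h4 : c * ‖v‖ ^ 2 - N z * ‖v‖ ^ 2 ≤ g z := by linarith
    calc c * ‖v‖ ^ 2 * w z - ‖v‖ ^ 2 * (w z * N z) = w z * (c * ‖v‖ ^ 2 - N z * ‖v‖ ^ 2) := by
          ring
      _ ≤ w z * g z := mul_le_mul_of_nonneg_left h4 (w0 z)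
  have e2 : ∫ z in ball x R, (c * ‖v‖ ^ 2 * w z - ‖v‖ ^ 2 * (w z * N z)) ≤
      ∫ z in ball x R, w z * g z :=
    integral_mono_ae ((hwI.const_mul _).sub (hNw.const_mul _)) hgw hpt
  rw [integral_sub (hwI.const_mul _) (hNw.const_mul _), integral_const_mul, integral_const_mul,
    w3, mul_one] at e2
  have e3 : ∫ z in ball x R, w z * N z ≤ C / R ^ m * (κ * R ^ m) := by
    calc ∫ z in ball x R, w z * N z ≤ ∫ z in ball x R, C / R ^ m * N z :=
          integral_mono hNw (NI.const_mul _) fun z =>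
            mul_le_mul_of_nonneg_right (w1 z) (N0 z)
      _ = C / R ^ m * ∫ z in ball x R, N z := integral_const_mul _ _
      _ ≤ _ := mul_le_mul_of_nonneg_left Nb (by positivity)
  have e4 : C / R ^ m * (κ * R ^ m) = C * κ := by field_simp
  rw [e4] at e3
  rw [e1]
  have e5 : ‖v‖ ^ 2 * ∫ z in ball x R, w z * N z ≤ ‖v‖ ^ 2 * (C * κ) :=
    mul_le_mul_of_nonneg_left e3 (by positivity)
  linarith

theorem t_LOW (E : Type) [NormedAddCommGroup E] [InnerProductSpace ℝ E] [FiniteDimensional ℝ E]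
    [MeasurableSpace E] [BorelSpace E] : S_LOW E := by
  refine ⟨2 ^ Module.finrank ℝ E / volume.real (ball (0 : E) 1), ?_, ?_⟩
  · have hV0 : 0 < volume.real (ball (0 : E) 1) :=
      ENNReal.toReal_pos (measure_ball_pos _ _ one_pos).ne' measure_ball_lt_top.ne
    positivity
  · intro θ A Q x ρ c κ h1 h2 h3 h4 h5 h6 v
    exact low_aux θ A Q x ρ c κ h1 h2 h3 h4 h5 h6 v

end Pool.Agent.Y454.SY
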